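import Mathlib
import Pool.Agent.Helper60.BTDefs
import Pool.Agent.Helper60.BTUpper
import Pool.Agent.Helper60.BTLowFinal
import Pool.Agent.Helper8.BTLowT

/-!
# Book thickness of `K_n □ K_n`: the superlinear lower bound `c n^{7/6} ≤ bt`
-/

set_option autoImplicit false

namespace Pool.Agent.Results.MP_fb44d2_co.PagesLowerBound

open Pool.Agent.Helper60.BT

/-- For every `n ≥ 2` the book thickness of the `n × n` rook's graph is at least
`n^{7/6} / 2^77` (and the minimum in the definition of `bt` is attained). -/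
theorem result : ∀ n : ℕ, 2 ≤ n →
    HasBookEmbedding (rook n) (bt (rook n)) ∧
    (n : ℝ) ^ (7 / 6 : ℝ) / 2 ^ 77 ≤ (bt (rook n) : ℝ) := by
  intro n hn
  obtain ⟨p, hp, hb⟩ := rook_upper n (by omega)
  have hmem : p ∈ {p | HasBookEmbedding (rook n) p} := hb
  have hbt : HasBookEmbedding (rook n) (bt (rook n)) := Nat.sInf_mem ⟨p, hmem⟩
  refine ⟨hbt, ?_⟩
  refine rook_lower ?_ n _ hn hbt
  intro N n p W D w w' S ℓ F h1 h2 h3 h4 h5 h6 h7 h8
  exact twist W D w w' S ℓ F h1 h2 h3 h4 h5 h6 h7 h8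

end Pool.Agent.Results.MP_fb44d2_co.PagesLowerBound
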