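import Mathlib
import Pool.Agent.Helper60.BTDefs
import Pool.Agent.Helper60.BTUpper

/-!
# Book thickness of `K_n □ K_n`: the upper bound `bt ≤ C n^{4/3}`
-/

set_option autoImplicit false

namespace Pool.Agent.Results.MP_fb44d2_co.PagesUpperBound

open Pool.Agent.Helper60.BT

/-- For every `n ≥ 1` the book thickness of the `n × n` rook's graph is at most `3840 n^{4/3}`
(and the minimum in the definition of `bt` is attained). -/
theorem result : ∀ n : ℕ, 1 ≤ n →
    HasBookEmbedding (rook n) (bt (rook n)) ∧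
    (bt (rook n) : ℝ) ≤ 3840 * (n : ℝ) ^ (4 / 3 : ℝ) := by
  intro n hn
  obtain ⟨p, hp, hb⟩ := rook_upper n hn
  have hmem : p ∈ {p | HasBookEmbedding (rook n) p} := hb
  have hbt : HasBookEmbedding (rook n) (bt (rook n)) := Nat.sInf_mem ⟨p, hmem⟩
  refine ⟨hbt, ?_⟩
  have h1 : bt (rook n) ≤ p := Nat.sInf_le hmem
  have h2 : (bt (rook n) : ℝ) ≤ p := by exact_mod_cast h1
  exact h2.trans hp

end Pool.Agent.Results.MP_fb44d2_co.PagesUpperBound
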